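import Pool.Agent.H482Z.CMDim.Ring

set_option autoImplicit false

/-!
Every nonzero finitely generated torsion-free module over the Akizuki type ring has one of the
overrings as a direct summand.
-/

namespace Pool.Agent.H482Z.CMDim

universe u

namespace Data

variable {k L : Type u} [Field k] [Field L] (d : Data k L)

section Core

variable {ι : Type u} [Fintype ι] [DecidableEq ι] (M : Submodule d.R (ι → L))

omit [DecidableEq ι] in
theorem unif (x : ι → L) : ∃ N : ℕ, ∀ i, d.t ^ N * x i ∈ d.V := by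
  choose f hf using fun i => d.exists_tpow (x i)
  exact ⟨Finset.univ.sup f, fun i => d.mono (hf i) (Finset.le_sup (Finset.mem_univ i))⟩

/-- the lattice `D M + V^ι` -/
def Lam : Submodule d.V (ι → L) where
  carrier := {w | ∃ m ∈ M, ∀ i, w i - d.D (m i) ∈ d.V}
  add_mem' := by
    rintro a b ⟨m, hm, h⟩ ⟨m', hm', h'⟩
    refine ⟨m + m', M.add_mem hm hm', fun i => ?_⟩
    have := d.V.add_mem (h i) (h' i)
    convert this using 1
    simp only [Pi.add_apply, map_add]
    ring
  zero_mem' := ⟨0, M.zero_mem, fun i => by simp⟩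
  smul_mem' := by
    rintro a w ⟨m, hm, h⟩
    obtain ⟨N, hN⟩ := d.unif (fun i => d.D (m i))
    obtain ⟨c, hc, hc0, hac⟩ := d.approx N a a.2
    refine ⟨(⟨c, d.const_mem hc hc0⟩ : d.R) • m, M.smul_mem _ hm, fun i => ?_⟩
    change (a : L) * w i - d.D (c * m i) ∈ d.V
    rw [d.D_const_mul hc0]
    have := d.V.add_mem (d.V.mul_mem a.2 (h i)) (d.V.mul_mem hac (hN i))
    convert this using 1
    have ht := d.t_ne
    field_simp
    ring

theorem bound (hfg : M.FG) (hV : ∀ m ∈ M, ∀ i, m i ∈ d.V) :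
    ∃ N : ℕ, ∀ w ∈ d.Lam M, ∀ i, d.t ^ N * w i ∈ d.V := by
  obtain ⟨s, hs⟩ := hfg
  choose f hf using fun x : ι → L => d.unif (fun i => d.D (x i))
  refine ⟨s.sup f, ?_⟩
  have key : ∀ m ∈ M, ∀ i, d.t ^ s.sup f * d.D (m i) ∈ d.V := by
    intro m hm
    have hm' : m ∈ Submodule.span d.R (s : Set (ι → L)) := hs ▸ hm
    induction hm' using Submodule.span_induction with
    | mem x hx => exact fun i => d.mono (hf x i) (Finset.le_sup hx)
    | zero => intro i; simp
    | add x y hx hy ihx ihy =>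
      intro i
      rw [Pi.add_apply, map_add, mul_add]
      exact d.V.add_mem (ihx (hs ▸ hx) i) (ihy (hs ▸ hy) i)
    | smul a x hx ih =>
      intro i
      change d.t ^ s.sup f * d.D (a * x i) ∈ d.V
      rw [d.leib]
      have := d.V.add_mem (d.V.mul_mem a.2.1 (ih (hs ▸ hx) i))
        (d.V.mul_mem (d.tpow_mem (s.sup f)) (d.V.mul_mem a.2.2 (hV x (hs ▸ hx) i)))
      convert this using 1
      ring
  rintro w ⟨m, hm, h⟩ i
  have := d.V.add_mem (d.V.mul_mem (d.tpow_mem (s.sup f)) (h i)) (key m hm i)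
  convert this using 1
  ring

theorem mem_of_Lam (hV : ∀ m ∈ M, ∀ i, m i ∈ d.V) (hb : ∀ i, Pi.single i 1 ∈ M) (x : ι → L)
    (hx : ∀ i, x i ∈ d.V) (hD : (fun i => d.D (x i)) ∈ d.Lam M) : x ∈ M := by
  obtain ⟨m, hm, h⟩ := hD
  have h1 : ∀ i, x i - m i ∈ d.R := fun i =>
    ⟨d.V.sub_mem (hx i) (hV m hm i), by rw [map_sub]; exact h i⟩
  have h2 : x = m + ∑ i, (⟨_, h1 i⟩ : d.R) • (Pi.single i 1 : ι → L) := by
    ext j
    simp [Finset.sum_apply, Pi.single_apply, Subring.smul_def]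
  rw [h2]
  exact M.add_mem hm (M.sum_mem fun i _ => M.smul_mem _ (hb i))

theorem exists_coord (hfg : M.FG) (hV : ∀ m ∈ M, ∀ i, m i ∈ d.V) (y : d.Lam M)
    (hy : ∀ w : d.Lam M, (y : ι → L) ≠ d.t • (w : ι → L)) :
    ∃ f : d.Lam M →ₗ[d.V] d.V, ((f y : d.V) : L) ≠ 0 ∧ ((f y : d.V) : L)⁻¹ ∈ d.V := by
  obtain ⟨N, hN⟩ := d.bound M hfg hV
  let g : d.Lam M →ₗ[d.V] (ι → d.V) :=
    { toFun := fun w i => ⟨_, hN w w.2 i⟩
      map_add' := fun x y => by ext i; simp [mul_add]
      map_smul' := fun c x => by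
        ext i
        simp only [SetLike.val_smul, Pi.smul_apply, Subring.smul_def, smul_eq_mul,
          RingHom.id_apply, Subring.coe_mul]
        ring }
  have hg : Function.Injective g := by
    intro x y h
    ext i
    have h1 : d.t ^ N * (x : ι → L) i = d.t ^ N * (y : ι → L) i :=
      congrArg Subtype.val (congrFun h i)
    exact mul_left_cancel₀ (pow_ne_zero _ d.t_ne) h1
  have : Module.Finite d.V (d.Lam M) := Module.Finite.of_injective g hg
  have : Module.IsTorsionFree d.V (d.Lam M) := hg.moduleIsTorsionFree g (by simp)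
  let b := Module.Free.chooseBasis d.V (d.Lam M)
  by_contra hcon
  have h1 : ∀ j, ((b.repr y j : d.V) : L) / d.t ∈ d.V := by
    intro j
    refine (d.unit_or (b.repr y j).2).resolve_left fun h => hcon ⟨b.coord j, h⟩
  apply hy (∑ j, (⟨_, h1 j⟩ : d.V) • b j)
  conv_lhs => rw [← b.sum_repr y]
  simp only [AddSubmonoidClass.coe_finsetSum, SetLike.val_smul, Finset.smul_sum,
    Subring.smul_def, smul_smul]
  refine Finset.sum_congr rfl fun j _ => ?_
  rw [mul_div_cancel₀ _ d.t_ne]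

theorem core [Nonempty ι] (hfg : M.FG) (hV : ∀ m ∈ M, ∀ i, m i ∈ d.V)
    (hb : ∀ i, Pi.single i 1 ∈ M) :
    ∃ (n : ℕ) (i : d.Rn n →ₗ[d.R] M) (p : M →ₗ[d.R] d.Rn n), ∀ x, p (i x) = x := by
  classical
  have ht := d.t_ne
  obtain ⟨N, hN⟩ := d.bound M hfg hV
  have hex : ∃ n : ℕ, ∃ i, (Pi.single i (d.t ^ (n + 1))⁻¹ : ι → L) ∉ d.Lam M := by
    refine ⟨N, Classical.arbitrary ι, fun h => d.tinv ?_⟩
    have := hN _ h (Classical.arbitrary ι)
    rw [Pi.single_eq_same] at this
    convert this using 1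
    field_simp
    ring
  obtain ⟨n, ⟨i₀, hi₀⟩, hmin⟩ : ∃ n : ℕ,
      (∃ i, (Pi.single i (d.t ^ (n + 1))⁻¹ : ι → L) ∉ d.Lam M) ∧
      ∀ j, (Pi.single j (d.t ^ n)⁻¹ : ι → L) ∈ d.Lam M := by
    refine ⟨Nat.find hex, Nat.find_spec hex, fun j => ?_⟩
    rcases h : Nat.find hex with _ | m
    · refine ⟨0, M.zero_mem, fun i => ?_⟩
      rcases eq_or_ne i j with rfl | hij
      · simp
      · simp [Pi.single_eq_of_ne hij]
    · have := Nat.find_min hex (m := m) (by omega)
      push Not at this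
      exact this j
  obtain ⟨f, hf0, hf1⟩ := d.exists_coord M hfg hV ⟨_, hmin i₀⟩ (by
    intro w hw
    apply hi₀
    have : (Pi.single i₀ (d.t ^ (n + 1))⁻¹ : ι → L) = w := by
      have h2 : (w : ι → L) = d.t⁻¹ • (Pi.single i₀ (d.t ^ n)⁻¹ : ι → L) := by
        simp only at hw
        rw [hw, smul_smul, inv_mul_cancel₀ ht, one_smul]
      rw [h2, ← Pi.single_smul, smul_eq_mul, pow_succ, mul_inv, mul_comm]
    rw [this]
    exact w.2)
  let γ : ι → d.V := fun j => f ⟨_, hmin j⟩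
  have hγ : ∀ w ∈ d.Lam M, d.t ^ n * ∑ j, (γ j : L) * w j ∈ d.V := by
    intro w hw
    let a : ι → d.V := fun j => ⟨d.t ^ (N + n) * w j, d.mono (hN w hw j) (by omega)⟩
    have h1 : ∑ j, a j • (⟨_, hmin j⟩ : d.Lam M) =
        (⟨d.t ^ N, d.tpow_mem N⟩ : d.V) • (⟨w, hw⟩ : d.Lam M) := by
      ext i
      simp only [AddSubmonoidClass.coe_finsetSum, SetLike.val_smul, Finset.sum_apply,
        Pi.smul_apply, Subring.smul_def, smul_eq_mul, Pi.single_apply, a]
      simp only [mul_ite, mul_zero, Finset.sum_ite_eq, Finset.mem_univ, if_true]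
      field_simp
      ring
    have h2 := congrArg (fun z => ((f z : d.V) : L)) h1
    simp only [map_sum, map_smul, smul_eq_mul, AddSubmonoidClass.coe_finsetSum,
      Subring.coe_mul, a] at h2
    have h3 : d.t ^ n * ∑ j, (γ j : L) * w j = (f ⟨w, hw⟩ : d.V) := by
      apply mul_left_cancel₀ (pow_ne_zero N ht)
      rw [← h2, Finset.mul_sum, Finset.mul_sum]
      refine Finset.sum_congr rfl fun j _ => ?_
      simp only [γ]
      ring
    rw [h3]
    exact (f ⟨w, hw⟩).2
  choose c hc hc0 hγc using fun j => d.approx (N + 1) (γ j) (γ j).2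
  have hcu : c i₀ ≠ 0 ∧ (c i₀)⁻¹ ∈ d.V := by
    refine (d.unit_or (hc i₀)).resolve_right fun h => d.not_both hf0 hf1 ?_
    have := d.V.add_mem h (d.V.mul_mem (d.tpow_mem N) (hγc i₀))
    convert this using 1
    simp only [γ]
    field_simp
    ring
  have hp : ∀ m : M, ∑ j, c j * (m : ι → L) j ∈ d.Rn n := by
    intro m
    refine ⟨d.V.sum_mem fun j _ => d.V.mul_mem (hc j) (hV _ m.2 j), ?_⟩
    have hDm : (fun i => d.D ((m : ι → L) i)) ∈ d.Lam M := ⟨m, m.2, fun i => by simp⟩
    have h1 := hγ _ hDm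
    have h2 : ∑ j, d.t ^ n * d.t * ((γ j - c j) / d.t ^ (N + 1)) *
        (d.t ^ N * d.D ((m : ι → L) j)) ∈ d.V :=
      d.V.sum_mem fun j _ => d.V.mul_mem (d.V.mul_mem (d.V.mul_mem (d.tpow_mem n) d.t_mem)
        (hγc j)) (hN _ hDm j)
    have := d.V.sub_mem h1 h2
    convert this using 1
    rw [map_sum, Finset.mul_sum, Finset.mul_sum, ← Finset.sum_sub_distrib]
    refine Finset.sum_congr rfl fun j _ => ?_
    rw [d.D_const_mul (hc0 j)]
    field_simp
    ring
  have hi : ∀ l : d.Rn n, (Pi.single i₀ ((c i₀)⁻¹ * l) : ι → L) ∈ M := by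
    intro l
    refine d.mem_of_Lam M hV hb _ (fun i => ?_) ?_
    · rcases eq_or_ne i i₀ with rfl | h
      · rw [Pi.single_eq_same]; exact d.V.mul_mem hcu.2 l.2.1
      · simp [Pi.single_eq_of_ne h]
    · have := (d.Lam M).smul_mem ⟨_, d.V.mul_mem hcu.2 l.2.2⟩ (hmin i₀)
      convert this using 1
      ext i
      rcases eq_or_ne i i₀ with rfl | h
      · simp only [Pi.single_eq_same, Pi.smul_apply, Subring.smul_def, smul_eq_mul]
        rw [d.D_const_mul (d.D_inv_const (hc0 i))]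
        field_simp
      · simp [Pi.single_eq_of_ne h]
  refine ⟨n,
    { toFun := fun l => ⟨_, hi l⟩
      map_add' := fun x y => Subtype.ext (by simp [mul_add, Pi.single_add])
      map_smul' := fun a x => Subtype.ext (by
        simp only [SetLike.val_smul, Subring.smul_def, smul_eq_mul, RingHom.id_apply]
        rw [← Pi.single_smul, smul_eq_mul]
        congr 1
        ring) },
    { toFun := fun m => ⟨_, hp m⟩
      map_add' := fun x y => Subtype.ext (by simp [mul_add, Finset.sum_add_distrib])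
      map_smul' := fun a x => Subtype.ext (by
        simp only [SetLike.val_smul, Subring.smul_def, smul_eq_mul, RingHom.id_apply,
          Pi.smul_apply, Finset.mul_sum]
        refine Finset.sum_congr rfl fun j _ => ?_
        ring) }, fun x => Subtype.ext ?_⟩
  simp only [LinearMap.coe_mk, AddHom.coe_mk, Pi.single_apply, mul_ite, mul_zero,
    Finset.sum_ite_eq', Finset.mem_univ, if_true]
  rw [← mul_assoc, mul_inv_cancel₀ hcu.1, one_mul]

end Core

end Data

end Pool.Agent.H482Z.CMDim
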