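import Mathlib

set_option autoImplicit false

/-!
Maximal Cohen-Macaulay modules, countable representation type and the dimension of a
subcategory of the category of finitely generated modules (Dao and Takahashi).
A subcategory is given by the class of its objects.
-/

namespace Pool.Agent.H482Z.CMDim

universe u

open IsLocalRing

/-- The depth of a module `M` over a local ring `S`: the supremum of the lengths of the
`M`-regular sequences in the maximal ideal (it is infinite for the zero module). -/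
noncomputable def depth (S : Type u) [CommRing S] [IsLocalRing S] (M : Type u) [AddCommGroup M]
    [Module S M] : ℕ∞ :=
  ⨆ (rs : List S) (_ : ∀ r ∈ rs, r ∈ maximalIdeal S)
    (_ : RingTheory.Sequence.IsWeaklyRegular M rs), (rs.length : ℕ∞)

variable (R : Type u) [CommRing R]

/-- The class `CM(R)` of maximal Cohen-Macaulay modules: finitely generated modules `M` with
`depth M_p ≥ dim R_p` for every prime `p`. -/
def CM : Set (ModuleCat.{u} R) :=
  {M | Module.Finite R M ∧ ∀ (p : Ideal R) [p.IsPrime],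
    ringKrullDim (Localization.AtPrime p) ≤
      (depth (Localization.AtPrime p) (LocalizedModule p.primeCompl M) : WithBot ℕ∞)}

/-- A module is indecomposable if it is nonzero and is not a direct sum of two nonzero
submodules. -/
def IsIndec (M : ModuleCat.{u} R) : Prop :=
  Nontrivial M ∧ ∀ A B : Submodule R M, IsCompl A B → A = ⊥ ∨ B = ⊥

/-- Countable CM-representation type: there are at most countably many isomorphism classes of
indecomposable maximal Cohen-Macaulay modules. -/
def CountableCMType : Prop :=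
  ∃ f : ℕ → ModuleCat.{u} R, ∀ M ∈ CM R, IsIndec R M → ∃ n, Nonempty (M ≃ₗ[R] f n)

variable [IsLocalRing R]

/-- `N` is the first syzygy of `M`: it is isomorphic to the kernel of a minimal free cover
`R^n → M` (a surjection whose kernel lies in `m R^n`). -/
def IsSyzygy (M N : ModuleCat.{u} R) : Prop :=
  ∃ (n : ℕ) (π : (Fin n → R) →ₗ[R] M), Function.Surjective π ∧
    LinearMap.ker π ≤ maximalIdeal R • (⊤ : Submodule R (Fin n → R)) ∧
    Nonempty (N ≃ₗ[R] LinearMap.ker π)

/-- `IsSyzygyIter R i M N`: `N` is the `i`-th syzygy of `M` in its minimal free resolution. -/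
def IsSyzygyIter : ℕ → ModuleCat.{u} R → ModuleCat.{u} R → Prop
  | 0, M, N => Nonempty (N ≃ₗ[R] M)
  | i + 1, M, N => ∃ N' : ModuleCat.{u} R, IsSyzygyIter i M N' ∧ IsSyzygy R N' N

omit [IsLocalRing R] in
/-- `add X`: the direct summands (retracts) of finite direct sums of modules of `X`. -/
def addCl (X : Set (ModuleCat.{u} R)) : Set (ModuleCat.{u} R) :=
  {M | ∃ (n : ℕ) (f : Fin n → ModuleCat.{u} R), (∀ j, f j ∈ X) ∧
    ∃ (i : M →ₗ[R] ((j : Fin n) → f j)) (p : ((j : Fin n) → f j) →ₗ[R] M),
      ∀ x, p (i x) = x}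

/-- `[X] = add ({R} ∪ {Ω^i A : i ≥ 0, A ∈ X})`. -/
def bracket (X : Set (ModuleCat.{u} R)) : Set (ModuleCat.{u} R) :=
  addCl R ({ModuleCat.of R R} ∪ {N | ∃ (i : ℕ) (A : ModuleCat.{u} R), A ∈ X ∧ IsSyzygyIter R i A N})

omit [IsLocalRing R] in
/-- `X ∘ Y`: the modules `M` in an exact sequence `0 → A → M → B → 0`, `A ∈ X`, `B ∈ Y`. -/
def extCl (X Y : Set (ModuleCat.{u} R)) : Set (ModuleCat.{u} R) :=
  {M | ∃ A ∈ X, ∃ B ∈ Y, ∃ (f : A →ₗ[R] M) (g : M →ₗ[R] B),
    Function.Injective f ∧ Function.Exact f g ∧ Function.Surjective g}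

/-- `[C]_0 = {0}`, `[C]_1 = [C]`, `[C]_r = [[C]_(r-1) ∘ [C]]` for `r ≥ 2`. -/
def ball (C : Set (ModuleCat.{u} R)) : ℕ → Set (ModuleCat.{u} R)
  | 0 => {M | Subsingleton M}
  | 1 => bracket R C
  | r + 2 => bracket R (extCl R (ball C (r + 1)) (bracket R C))

/-- The dimension of a subcategory `X`: the infimum of the `n` with `X = [G]_(n+1)` for some
`G ∈ X`, infinite if there is no such `n`. -/
noncomputable def dimSub (X : Set (ModuleCat.{u} R)) : ℕ∞ :=
  ⨅ (n : ℕ) (_ : ∃ G ∈ X, X = ball R {G} (n + 1)), (n : ℕ∞)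

end Pool.Agent.H482Z.CMDim
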