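import Pool.Agent.H482Z.CMDim.Ring
import Pool.Agent.H482Z.Liouville

set_option autoImplicit false

namespace Pool.Agent.H482Z.CMDim

universe u

open Polynomial

theorem exists_deriv (A : Type u) [CommRing A] [IsDomain A] (L : Type u) [Field L]
    [Algebra A[X] L] [IsFractionRing A[X] L] :
    ∃ D : L →+ L, (∀ a b, D (a * b) = a * D b + D a * b) ∧
      (∀ a : A, D (algebraMap A[X] L (C a)) = 0) ∧ D (algebraMap A[X] L X) = 1 := by
  let g : A[X] →+* TrivSqZeroExt L L :=
    Polynomial.eval₂RingHom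
      ((TrivSqZeroExt.inlHom L L).comp ((algebraMap A[X] L).comp C))
      (TrivSqZeroExt.inl (algebraMap A[X] L X) + TrivSqZeroExt.inr 1)
  have hfst : ∀ p : A[X], (g p).fst = algebraMap A[X] L p := by
    intro p
    have : ((TrivSqZeroExt.fstHom L L L).toRingHom.comp g) = algebraMap A[X] L := by
      apply Polynomial.ringHom_ext
      · intro a; simp [g]
      · simp [g]
    exact congrArg (fun f : A[X] →+* L => f p) this
  have hu : ∀ y : nonZeroDivisors A[X], IsUnit (g y) := by
    intro y
    rw [TrivSqZeroExt.isUnit_iff_isUnit_fst, hfst]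
    exact IsLocalization.map_units L y
  let ψ : L →+* TrivSqZeroExt L L := IsLocalization.lift hu
  have hψ : ∀ x, (ψ x).fst = x := by
    intro x
    have : ((TrivSqZeroExt.fstHom L L L).toRingHom.comp ψ) = RingHom.id L := by
      apply IsLocalization.ringHom_ext (nonZeroDivisors A[X])
      ext1
      · ext a; simp [ψ, hfst]
      · simp [ψ, hfst]
    exact congrArg (fun f : L →+* L => f x) this
  refine ⟨{ toFun := fun x => (ψ x).snd
            map_zero' := by simp
            map_add' := fun x y => by simp }, fun a b => ?_, fun a => ?_, ?_⟩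
  · simp [hψ, mul_comm]
  · simp [ψ, g]
  · simp [ψ, g]

theorem exists_data (k : Type u) [Field k] :
    Nonempty (Data k (FractionRing (k[X])[X])) := by
  obtain ⟨τ, -, hτ⟩ := Liouville.exists_transc k
  let L := FractionRing (k[X])[X]
  let K := FractionRing (PowerSeries k)
  obtain ⟨D, hD, hDC, hDX⟩ := exists_deriv k[X] L
  let φ₀ : (k[X])[X] →+* PowerSeries k :=
    Polynomial.eval₂RingHom Polynomial.coeToPowerSeries.ringHom τ
  have hφ₀ : Function.Injective ((algebraMap (PowerSeries k) K).comp φ₀) := by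
    refine (IsFractionRing.injective (PowerSeries k) K).comp (?_ : Function.Injective φ₀)
    rw [injective_iff_map_eq_zero]
    intro P hP
    by_contra h
    exact hτ P h hP
  let φ : L →+* K := IsFractionRing.lift hφ₀
  have hφ : ∀ p, φ (algebraMap _ L p) = algebraMap (PowerSeries k) K (φ₀ p) := fun p =>
    IsFractionRing.lift_algebraMap hφ₀ p
  let V : Subring L := (algebraMap (PowerSeries k) K).range.comap φ
  have hV : ∀ x, x ∈ V ↔ ∃ s, algebraMap (PowerSeries k) K s = φ x := fun x => Iff.rfl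
  let t : L := algebraMap (k[X])[X] L (C X)
  have hφt : φ t = algebraMap (PowerSeries k) K PowerSeries.X := by
    simp [t, hφ, φ₀]
  have hX0 : algebraMap (PowerSeries k) K PowerSeries.X ≠ 0 := by
    simp [PowerSeries.X_ne_zero]
  have ht0 : t ≠ 0 := fun h => hX0 (by rw [← hφt, h, map_zero])
  have hDt : D t = 0 := hDC _
  have hD1 : D 1 = 0 := by simpa using hD 1 1
  have hDpow : ∀ n : ℕ, D (t ^ n) = 0 := by
    intro n
    induction n with
    | zero => simpa using hD1
    | succ n ih => rw [pow_succ, hD, ih, hDt]; simp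
  refine ⟨{ V := V, t := t, D := D
            κ := (algebraMap (k[X])[X] L).comp (C.comp C)
            t_ne := ht0
            t_mem := ⟨_, hφt.symm⟩
            tinv := ?_, fact := ?_, leib := hD, Dt := hDt, κ_mem := ?_, Dκ := fun c => hDC _
            res := ?_, dense := ?_ }⟩
  · rintro ⟨s, hs⟩
    rw [map_inv₀, hφt] at hs
    have h1 : algebraMap (PowerSeries k) K (PowerSeries.X * s) = algebraMap _ K 1 := by
      rw [map_mul, hs, mul_inv_cancel₀ hX0, map_one]
    have h2 := congrArg PowerSeries.constantCoeff (IsFractionRing.injective _ K h1)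
    simp at h2
  · intro x hx
    obtain ⟨n, w, hw⟩ := IsDiscreteValuationRing.exists_units_eq_smul_zpow_of_irreducible
      (K := K) (PowerSeries.X_irreducible (R := k)) ((map_ne_zero φ).mpr hx)
    have h1 : φ (x / t ^ n) = algebraMap (PowerSeries k) K w := by
      rw [map_div₀, map_zpow₀, hφt, hw, Units.smul_def, Algebra.smul_def,
        mul_div_cancel_right₀ _ (zpow_ne_zero n hX0)]
    refine ⟨n, x / t ^ n, ⟨_, h1.symm⟩, ⟨(w⁻¹ : (PowerSeries k)ˣ), ?_⟩, ?_⟩
    · rw [map_inv₀, h1]
      simp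
    · rw [mul_div_cancel₀ _ (zpow_ne_zero n ht0)]
  · intro c
    exact ⟨_, (hφ _).symm⟩
  · rintro v ⟨s, hs⟩
    obtain ⟨s', hs'⟩ : PowerSeries.X ∣ s - PowerSeries.C (PowerSeries.constantCoeff s) := by
      rw [PowerSeries.X_dvd_iff]; simp
    refine ⟨PowerSeries.constantCoeff s, s', ?_⟩
    rw [map_div₀, map_sub, ← hs, hφt, RingHom.comp_apply, hφ, eq_div_iff hX0, ← map_mul,
      ← map_sub, mul_comm, ← hs']
    simp [φ₀]
  · intro N
    obtain ⟨s, hs⟩ : PowerSeries.X ^ N ∣
        τ - ((PowerSeries.trunc N τ : k[X]) : PowerSeries k) := by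
      rw [PowerSeries.X_pow_dvd_iff]
      intro m hm
      simp [PowerSeries.coeff_trunc, hm]
    refine ⟨(t ^ N)⁻¹ * (algebraMap (k[X])[X] L X -
      algebraMap (k[X])[X] L (C (PowerSeries.trunc N τ))), ⟨s, ?_⟩, ?_⟩
    · rw [map_mul, map_inv₀, map_pow, hφt, map_sub, hφ, hφ, ← map_sub,
        eq_inv_mul_iff_mul_eq₀ (pow_ne_zero N hX0), ← map_pow, ← map_mul, ← hs]
      simp [φ₀]
    · have h1 : D (t ^ N)⁻¹ = 0 := by
        have h2 := hD (t ^ N) (t ^ N)⁻¹
        rw [mul_inv_cancel₀ (pow_ne_zero N ht0), hD1, hDpow, zero_mul, add_zero] at h2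
        exact (mul_eq_zero.mp h2.symm).resolve_left (pow_ne_zero N ht0)
      rw [hD, h1, map_sub, hDX, hDC]
      simp

end Pool.Agent.H482Z.CMDim
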