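import Pool.Agent.H482Z.CMDim.Defs

set_option autoImplicit false

/-!
Multiplication by a ring element factoring through a finite free module.
-/

namespace Pool.Agent.H482Z.CMDim

universe u

variable {R : Type u} [CommRing R]

/-- the endomorphism `φ` factors through a finite free module -/
def FF {M N : Type u} [AddCommGroup M] [Module R M] [AddCommGroup N] [Module R N]
    (φ : M →ₗ[R] N) : Prop :=
  ∃ (n : ℕ) (α : M →ₗ[R] (Fin n → R)) (β : (Fin n → R) →ₗ[R] N), ∀ x, β (α x) = φ x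

section
variable {M N P : Type u} [AddCommGroup M] [Module R M] [AddCommGroup N] [Module R N]
  [AddCommGroup P] [Module R P]

theorem FF.comp_left {φ : M →ₗ[R] N} (h : FF φ) (g : N →ₗ[R] P) : FF (g ∘ₗ φ) := by
  obtain ⟨n, α, β, h⟩ := h
  exact ⟨n, α, g ∘ₗ β, fun x => by simp [h]⟩

theorem FF.comp_right {φ : N →ₗ[R] P} (h : FF φ) (g : M →ₗ[R] N) : FF (φ ∘ₗ g) := by
  obtain ⟨n, α, β, h⟩ := h
  exact ⟨n, α ∘ₗ g, β, fun x => by simp [h]⟩

theorem FF.zero : FF (0 : M →ₗ[R] N) := ⟨0, 0, 0, fun _ => rfl⟩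

theorem FF.add {φ ψ : M →ₗ[R] N} (h : FF φ) (h' : FF ψ) : FF (φ + ψ) := by
  obtain ⟨n, α, β, h⟩ := h
  obtain ⟨n', α', β', h'⟩ := h'
  let e : ((Fin n → R) × (Fin n' → R)) ≃ₗ[R] (Fin (n + n') → R) :=
    (LinearEquiv.sumArrowLequivProdArrow (Fin n) (Fin n') R R).symm ≪≫ₗ
      LinearEquiv.funCongrLeft R R finSumFinEquiv.symm
  refine ⟨n + n', e.toLinearMap ∘ₗ (α.prod α'), (β.coprod β') ∘ₗ e.symm.toLinearMap, fun x => ?_⟩
  simp [h, h']

theorem FF.sum {ι : Type} (s : Finset ι) (φ : ι → M →ₗ[R] N) (h : ∀ i ∈ s, FF (φ i)) :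
    FF (∑ i ∈ s, φ i) := by
  classical
  induction s using Finset.induction with
  | empty => simpa using FF.zero
  | insert a s ha ih =>
    rw [Finset.sum_insert ha]
    exact (h a (Finset.mem_insert_self _ _)).add
      (ih fun i hi => h i (Finset.mem_insert_of_mem hi))

theorem FF.smul {φ : M →ₗ[R] N} (h : FF φ) (c : R) : FF (c • φ) := by
  obtain ⟨n, α, β, h⟩ := h
  exact ⟨n, α, c • β, fun x => by simp [h]⟩

theorem FF.congr {φ ψ : M →ₗ[R] N} (h : FF φ) (e : ∀ x, φ x = ψ x) : FF ψ := by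
  have : φ = ψ := LinearMap.ext e
  exact this ▸ h

end

/-- the class of modules on which multiplication by `c` factors through a finite free module -/
def St (c : R) : Set (ModuleCat.{u} R) := {M | FF (c • (LinearMap.id : M →ₗ[R] M))}

theorem St.mul {c : R} {M : ModuleCat.{u} R} (h : M ∈ St c) (d : R) : M ∈ St (d * c) :=
  (FF.smul h d).congr fun x => by simp [mul_smul]

theorem St.retract {c : R} {M N : Type u} [AddCommGroup M] [Module R M] [AddCommGroup N]
    [Module R N] (h : FF (c • (LinearMap.id : N →ₗ[R] N))) (i : M →ₗ[R] N) (p : N →ₗ[R] M)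
    (hp : ∀ x, p (i x) = x) : FF (c • (LinearMap.id : M →ₗ[R] M)) :=
  ((h.comp_right i).comp_left p).congr fun x => by simp [hp]

theorem addCl_subset {c : R} {X : Set (ModuleCat.{u} R)} (h : X ⊆ St c) : addCl R X ⊆ St c := by
  rintro M ⟨n, f, hf, i, p, hp⟩
  refine St.retract ?_ i p hp
  have := FF.sum (Finset.univ : Finset (Fin n))
    (fun j => (LinearMap.single R (fun j => f j) j) ∘ₗ
      ((c • (LinearMap.id : f j →ₗ[R] f j)) ∘ₗ LinearMap.proj j))
    (fun j _ => ((h (hf j)).comp_right _).comp_left _)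
  refine this.congr fun x => ?_
  ext j
  simp [Finset.sum_apply]

theorem self_mem_St (c : R) : ModuleCat.of R R ∈ St c := by
  refine ⟨1, LinearMap.pi fun _ => LinearMap.id, c • LinearMap.proj 0, fun x => ?_⟩
  simp

theorem extCl_subset {c d : R} {X Y : Set (ModuleCat.{u} R)} (hX : X ⊆ St c) (hY : Y ⊆ St d) :
    extCl R X Y ⊆ St (c * d) := by
  rintro M ⟨A, hA, B, hB, f, g, hf, hfg, hg⟩
  obtain ⟨n, α, β, hβ⟩ := hY hB
  obtain ⟨β', hβ'⟩ := Module.projective_lifting_property g β hg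
  let δ : M →ₗ[R] M := d • LinearMap.id - β' ∘ₗ α ∘ₗ g
  have hδ : ∀ x, δ x ∈ LinearMap.range f := by
    intro x
    rw [← hfg.linearMap_ker_eq, LinearMap.mem_ker]
    have := LinearMap.congr_fun hβ' (α (g x))
    simp only [LinearMap.comp_apply] at this
    simp [δ, this, hβ]
  let γ : M →ₗ[R] A := (LinearEquiv.ofInjective f hf).symm.toLinearMap ∘ₗ δ.codRestrict _ hδ
  have hγ : ∀ x, f (γ x) = δ x := by
    intro x
    have h1 : ∀ y : LinearMap.range f, f ((LinearEquiv.ofInjective f hf).symm y) = y := by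
      intro y
      obtain ⟨y, rfl⟩ := (LinearEquiv.ofInjective f hf).surjective y
      rw [LinearEquiv.symm_apply_apply]
      rfl
    exact h1 _
  have h1 : FF (c • (β' ∘ₗ α ∘ₗ g)) := FF.smul ⟨n, α ∘ₗ g, β', fun _ => rfl⟩ c
  have h2 := ((hX hA).comp_right γ).comp_left f
  refine (h1.add h2).congr fun x => ?_
  simp [hγ, δ, smul_sub, mul_smul]

variable [IsLocalRing R]

theorem IsSyzygy.mem_St {c : R} {M N : ModuleCat.{u} R} (h : IsSyzygy R M N) (hM : M ∈ St c) :
    N ∈ St c := by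
  obtain ⟨m, π, hπ, -, ⟨e⟩⟩ := h
  obtain ⟨n, α, β, hβ⟩ := hM
  obtain ⟨β', hβ'⟩ := Module.projective_lifting_property π β hπ
  let δ : (Fin m → R) →ₗ[R] (Fin m → R) := c • LinearMap.id - β' ∘ₗ α ∘ₗ π
  have hδ : ∀ x, δ x ∈ LinearMap.ker π := by
    intro x
    rw [LinearMap.mem_ker]
    have := LinearMap.congr_fun hβ' (α (π x))
    simp only [LinearMap.comp_apply] at this
    simp [δ, this, hβ]
  refine St.retract (N := LinearMap.ker π) ?_ e.toLinearMap e.symm.toLinearMap (by simp)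
  refine ⟨m, (LinearMap.ker π).subtype, δ.codRestrict _ hδ, fun x => ?_⟩
  ext1
  have hx : π x = 0 := x.2
  simp [δ, hx]

theorem IsSyzygyIter.mem_St {c : R} {M : ModuleCat.{u} R} (hM : M ∈ St c) :
    ∀ (i : ℕ) (N : ModuleCat.{u} R), IsSyzygyIter R i M N → N ∈ St c
  | 0, _, ⟨e⟩ => St.retract hM e.toLinearMap e.symm.toLinearMap (by simp)
  | i + 1, _, ⟨N', h1, h2⟩ => h2.mem_St (IsSyzygyIter.mem_St hM i N' h1)

theorem bracket_subset {c : R} {X : Set (ModuleCat.{u} R)} (h : X ⊆ St c) :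
    bracket R X ⊆ St c := by
  refine addCl_subset ?_
  rintro N (rfl | ⟨i, A, hA, hN⟩)
  · exact self_mem_St c
  · exact IsSyzygyIter.mem_St (h hA) i N hN

theorem ball_subset {c : R} {X : Set (ModuleCat.{u} R)} (h : X ⊆ St c) :
    ∀ n : ℕ, ball R X (n + 1) ⊆ St (c ^ (n + 1))
  | 0 => by simpa [ball] using bracket_subset h
  | n + 1 => by
    rw [ball, pow_succ]
    exact bracket_subset (extCl_subset (ball_subset h n) (bracket_subset h))

end Pool.Agent.H482Z.CMDim
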