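import Pool.Agent.H482Z.CMDim.Core
import Pool.Agent.H482Z.CMDim.Stable

set_option autoImplicit false

namespace Pool.Agent.H482Z.CMDim

universe u

open TensorProduct

theorem one_le_depth {S : Type u} [CommRing S] [IsLocalRing S] {M : Type u} [AddCommGroup M]
    [Module S M] {r : S} (hr : r ∈ IsLocalRing.maximalIdeal S)
    (h : RingTheory.Sequence.IsWeaklyRegular M [r]) : 1 ≤ depth S M := by
  unfold depth
  refine le_iSup_of_le [r] (le_iSup_of_le (by simpa using hr) (le_iSup_of_le h ?_))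
  simp

theorem exists_of_one_le_depth {S : Type u} [CommRing S] [IsLocalRing S] {M : Type u}
    [AddCommGroup M] [Module S M] (h : 1 ≤ depth S M) :
    ∃ r ∈ IsLocalRing.maximalIdeal S, IsSMulRegular M r := by
  by_contra hcon
  have : depth S M ≤ 0 := by
    unfold depth
    refine iSup_le fun rs => iSup_le fun h1 => iSup_le fun h2 => ?_
    rcases rs with _ | ⟨r, rs⟩
    · simp
    · exact absurd ⟨r, h1 r (by simp),
        ((RingTheory.Sequence.isWeaklyRegular_cons_iff M r rs).mp h2).1⟩ hcon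
  exact absurd (h.trans this) (by simp)

namespace Data

variable {k L : Type u} [Field k] [Field L] (d : Data k L)

section Emb

variable (M : Type u) [AddCommGroup M] [Module d.R M]

theorem reg_all (ht : IsSMulRegular M d.tR) {x : d.R} (hx : x ≠ 0) : IsSMulRegular M x := by
  obtain ⟨N, c, hc⟩ := d.dvd_tpow hx
  have := ht.pow N
  rw [hc, mul_comm] at this
  exact this.of_mul

theorem embed' [Module.Finite d.R M] {W : Type u} [AddCommGroup W] [Module L W] [Module d.R W]
    [IsScalarTower d.R L W] (j : M →ₗ[d.R] W) (hj : Function.Injective j) :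
    ∃ (ι : Type u) (_ : Fintype ι) (_ : DecidableEq ι) (g : M →ₗ[d.R] (ι → L)),
      Function.Injective g ∧ (∀ m i, g m i ∈ d.V) ∧ ∀ i, ∃ m, g m = Pi.single i 1 := by
  classical
  let P : Submodule d.V W := Submodule.span d.V (Set.range j)
  let v : M → P := fun m => ⟨j m, Submodule.subset_span ⟨m, rfl⟩⟩
  have hsm : ∀ (r : d.R) (m : M), v (r • m) = (⟨r, r.2.1⟩ : d.V) • v m := by
    intro r m
    apply Subtype.ext
    change j (r • m) = (r : L) • j m
    rw [map_smul]
    exact (algebraMap_smul L r (j m)).symm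
  have hadd : ∀ m m' : M, v (m + m') = v m + v m' := fun m m' => Subtype.ext (map_add j m m')
  have hv : Submodule.span d.V (Set.range v) = ⊤ := by
    apply Submodule.map_injective_of_injective P.injective_subtype
    rw [Submodule.map_span, Submodule.map_top, Submodule.range_subtype, ← Set.range_comp]
    rfl
  have hfin : Module.Finite d.V P := by
    obtain ⟨s, hs⟩ := Module.Finite.fg_top (R := d.R) (M := M)
    refine ⟨⟨s.image v, ?_⟩⟩
    rw [eq_top_iff, ← hv, Submodule.span_le]
    rintro _ ⟨m, rfl⟩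
    have hm : m ∈ Submodule.span d.R (s : Set M) := hs ▸ Submodule.mem_top
    induction hm using Submodule.span_induction with
    | mem x hx => exact Submodule.subset_span (by simpa using ⟨x, hx, rfl⟩)
    | zero =>
      have : v 0 = 0 := Subtype.ext (map_zero j)
      rw [this]; exact Submodule.zero_mem _
    | add x y _ _ ihx ihy => rw [hadd]; exact Submodule.add_mem _ ihx ihy
    | smul a x _ ih => rw [hsm]; exact Submodule.smul_mem _ _ ih
  have htf : Module.IsTorsionFree d.V P := by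
    refine Module.IsTorsionFree.of_smul_eq_zero fun r m h => ?_
    have h1 : (r : L) • (m : W) = 0 := congrArg Subtype.val h
    rcases smul_eq_zero.mp h1 with h2 | h2
    · exact Or.inl (Subtype.ext h2)
    · exact Or.inr (Subtype.ext h2)
  have : Module.FinitePresentation d.V P := Module.finitePresentation_of_finite _ _
  obtain ⟨κ, a, b, hb⟩ := Module.exists_basis_of_span_of_flat v hv
  have : Finite κ := Module.Finite.finite_basis b
  refine ⟨κ, Fintype.ofFinite κ, inferInstance,
    { toFun := fun m i => (b.repr (v m) i : L)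
      map_add' := fun m m' => by ext i; simp [hadd]
      map_smul' := fun r m => by ext i; simp [hsm, Subring.smul_def] }, ?_, ?_, ?_⟩
  · intro m m' h
    apply hj
    have : b.repr (v m) = b.repr (v m') := by
      ext i
      exact congrFun h i
    exact congrArg Subtype.val (b.repr.injective this)
  · exact fun m i => (b.repr (v m) i).2
  · refine fun i => ⟨a i, ?_⟩
    ext i'
    simp only [LinearMap.coe_mk, AddHom.coe_mk, ← hb, Module.Basis.repr_self, Finsupp.single_apply,
      Pi.single_apply]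
    by_cases h : i = i'
    · simp [h]
    · simp [h, Ne.symm h]

theorem embed [Module.Finite d.R M] (ht : IsSMulRegular M d.tR) :
    ∃ (ι : Type u) (_ : Fintype ι) (_ : DecidableEq ι) (g : M →ₗ[d.R] (ι → L)),
      Function.Injective g ∧ (∀ m i, g m i ∈ d.V) ∧ ∀ i, ∃ m, g m = Pi.single i 1 := by
  let j : M →ₗ[d.R] L ⊗[d.R] M := TensorProduct.mk d.R L M 1
  have hj : Function.Injective j := by
    rw [← LinearMap.ker_eq_bot, LinearMap.ker_eq_bot']
    intro m hm
    obtain ⟨s, hs⟩ := (IsLocalizedModule.eq_zero_iff (nonZeroDivisors d.R) j).mp hm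
    exact (d.reg_all M ht (nonZeroDivisors.ne_zero s.2)).right_eq_zero_of_smul hs
  exact d.embed' M j hj

theorem summand [Module.Finite d.R M] [Nontrivial M] (ht : IsSMulRegular M d.tR) :
    ∃ (n : ℕ) (i : d.Rn n →ₗ[d.R] M) (p : M →ₗ[d.R] d.Rn n), ∀ x, p (i x) = x := by
  obtain ⟨ι, _, _, g, hg, hV, hb⟩ := d.embed M ht
  have : Nonempty ι := by
    by_contra h
    rw [not_nonempty_iff] at h
    obtain ⟨x, y, hxy⟩ := exists_pair_ne M
    exact hxy (hg (Subsingleton.elim _ _))
  obtain ⟨n, i, p, h⟩ := d.core (LinearMap.range g) (Module.Finite.iff_fg.mp inferInstance)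
    (by rintro _ ⟨m, rfl⟩ i; exact hV m i) hb
  let e := LinearEquiv.ofInjective g hg
  exact ⟨n, e.symm.toLinearMap ∘ₗ i, p ∘ₗ e.toLinearMap, fun x => by simp [h]⟩

theorem exists_St [Module.Finite d.R M] (ht : IsSMulRegular M d.tR) :
    ∃ N : ℕ, FF (d.tR ^ N • (LinearMap.id : M →ₗ[d.R] M)) := by
  obtain ⟨ι, _, _, g, hg, hV, hb⟩ := d.embed M ht
  choose e he using hb
  obtain ⟨N, hN⟩ := d.bound (LinearMap.range g) (Module.Finite.iff_fg.mp inferInstance)
    (by rintro _ ⟨m, rfl⟩ i; exact hV m i)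
  have hR : ∀ m i, d.t ^ N * g m i ∈ d.R := by
    intro m i
    refine ⟨d.V.mul_mem (d.tpow_mem N) (hV m i), ?_⟩
    rw [d.D_const_mul (d.D_tpow N)]
    exact hN (fun i => d.D (g m i)) ⟨g m, ⟨m, rfl⟩, fun i => by simp⟩ i
  let α : ι → M →ₗ[d.R] d.R := fun i =>
    { toFun := fun m => ⟨_, hR m i⟩
      map_add' := fun m m' => Subtype.ext (by simp [mul_add])
      map_smul' := fun r m => Subtype.ext (by
        simp only [map_smul, Pi.smul_apply, Subring.smul_def, smul_eq_mul, RingHom.id_apply,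
          Subring.coe_mul]
        ring) }
  refine ⟨N, Fintype.card ι, LinearMap.pi fun j => α ((Fintype.equivFin ι).symm j),
    Fintype.linearCombination d.R fun j => e ((Fintype.equivFin ι).symm j), fun m => hg ?_⟩
  rw [Fintype.linearCombination_apply, map_sum]
  simp only [LinearMap.pi_apply, map_smul, he]
  rw [Equiv.sum_comp (Fintype.equivFin ι).symm
    (fun i => α i m • (Pi.single i 1 : ι → L))]
  ext i
  simp [α, Finset.sum_apply, Pi.single_apply, Subring.smul_def]

end Emb

theorem Rn_not_St {n N : ℕ} (h : FF (d.tR ^ N • (LinearMap.id : d.Rn n →ₗ[d.R] d.Rn n))) :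
    n ≤ N := by
  have ht := d.t_ne
  obtain ⟨m, α, β, h⟩ := h
  obtain ⟨w, hw, hDw⟩ := d.dense n
  have h1 : (1 : L) ∈ d.Rn n := ⟨d.V.one_mem, by rw [d.D_one]; simp⟩
  have hw' : w ∈ d.Rn n := ⟨hw, by rw [hDw, mul_inv_cancel₀ (pow_ne_zero _ ht)]; simp⟩
  have hwR : d.t ^ n * w ∈ d.R := ⟨d.V.mul_mem (d.tpow_mem n) hw, by
    rw [d.D_const_mul (d.D_tpow n)]; exact hw'.2⟩
  have key : ∀ j, ((α ⟨1, h1⟩ j : d.R) : L) / d.t ^ n ∈ d.V := by
    intro j
    have e1 : d.tR ^ n • (⟨w, hw'⟩ : d.Rn n) = (⟨_, hwR⟩ : d.R) • (⟨1, h1⟩ : d.Rn n) :=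
      Subtype.ext (by simp [Subring.smul_def])
    have e2 := congrArg (fun z => ((α z j : d.R) : L)) e1
    simp only [map_smul, Pi.smul_apply, smul_eq_mul, Subring.coe_mul, SubmonoidClass.coe_pow,
      coe_tR] at e2
    have e3 : ((α ⟨w, hw'⟩ j : d.R) : L) = (α ⟨1, h1⟩ j : d.R) * w := by
      apply mul_left_cancel₀ (pow_ne_zero n ht)
      rw [e2]; ring
    have e4 := (α ⟨w, hw'⟩ j).2.2
    rw [e3, d.leib, hDw] at e4
    have := d.V.sub_mem e4 (d.V.mul_mem (α ⟨1, h1⟩ j).2.2 hw)
    convert this using 1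
    ring
  have e5 : α ⟨1, h1⟩ = ∑ j, α ⟨1, h1⟩ j • (Pi.single j 1 : Fin m → d.R) := by
    ext j
    simp [Finset.sum_apply, Pi.single_apply]
  have e6 := congrArg (fun z : d.Rn n => (z : L)) (h ⟨1, h1⟩)
  rw [e5] at e6
  simp only [map_sum, map_smul, AddSubmonoidClass.coe_finsetSum, SetLike.val_smul,
    Subring.smul_def, smul_eq_mul, LinearMap.smul_apply, LinearMap.id_apply,
    SubmonoidClass.coe_pow, coe_tR, mul_one] at e6
  have e7 : d.t ^ N / d.t ^ n ∈ d.V := by
    rw [← e6, Finset.sum_div]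
    refine d.V.sum_mem fun j _ => ?_
    have := d.V.mul_mem (key j) (β (Pi.single j 1)).2.1
    convert this using 1
    ring
  by_contra hcon
  obtain ⟨c, rfl⟩ := Nat.exists_eq_add_of_lt (not_le.mp hcon)
  apply d.tinv
  have := d.V.mul_mem e7 (d.tpow_mem c)
  convert this using 1
  field_simp
  ring

theorem height_max : (IsLocalRing.maximalIdeal d.R).height = 1 := by
  have h := IsLocalRing.maximalIdeal_height_eq_ringKrullDim (R := d.R)
  rw [d.dim_eq] at h
  exact_mod_cast h

theorem mem_CM (M : ModuleCat.{u} d.R) :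
    M ∈ CM d.R ↔ Module.Finite d.R M ∧ IsSMulRegular M d.tR := by
  constructor
  · rintro ⟨hfin, h⟩
    refine ⟨hfin, ?_⟩
    have h1 := h (IsLocalRing.maximalIdeal d.R)
    rw [IsLocalization.AtPrime.ringKrullDim_eq_height (IsLocalRing.maximalIdeal d.R),
      d.height_max] at h1
    obtain ⟨r, hr, hreg⟩ := exists_of_one_le_depth (WithBot.coe_le_coe.mp h1)
    obtain ⟨⟨a, s⟩, rfl⟩ := IsLocalization.mk'_surjective
      (IsLocalRing.maximalIdeal d.R).primeCompl r
    have ha : a ∈ IsLocalRing.maximalIdeal d.R :=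
      (IsLocalization.AtPrime.mk'_mem_maximal_iff _ (IsLocalRing.maximalIdeal d.R) a s).mp hr
    have hareg : IsSMulRegular M a := by
      refine IsSMulRegular.of_right_eq_zero_of_smul fun x hx => ?_
      have h2 : (LocalizedModule.mk x 1 :
          LocalizedModule (IsLocalRing.maximalIdeal d.R).primeCompl M) = 0 := by
        refine hreg.right_eq_zero_of_smul ?_
        simp only
        rw [← Localization.mk_eq_mk', LocalizedModule.mk_smul_mk, hx, LocalizedModule.zero_mk]
      obtain ⟨s', hs'⟩ := (IsLocalizedModule.eq_zero_iff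
        (IsLocalRing.maximalIdeal d.R).primeCompl
        (LocalizedModule.mkLinearMap (IsLocalRing.maximalIdeal d.R).primeCompl M)).mp h2
      have hu : IsUnit (s' : d.R) := by
        by_contra hu
        exact s'.2 hu
      exact hu.smul_eq_zero.mp hs'
    obtain ⟨c, hc⟩ := d.t_dvd_sq ha
    have := hareg.pow 2
    rw [hc, mul_comm] at this
    exact this.of_mul
  · rintro ⟨hfin, ht⟩
    refine ⟨hfin, fun p hp => ?_⟩
    rw [IsLocalization.AtPrime.ringKrullDim_eq_height p]
    rcases eq_or_ne p ⊥ with rfl | h0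
    · simp
    · obtain rfl := d.prime_eq hp h0
      rw [d.height_max, WithBot.coe_le_coe]
      have h1 : RingTheory.Sequence.IsWeaklyRegular M [d.tR] := by
        simpa using ht
      refine one_le_depth (r := algebraMap _ _ d.tR) ?_
        (h1.of_isLocalizedModule (Localization.AtPrime (IsLocalRing.maximalIdeal d.R))
          (IsLocalRing.maximalIdeal d.R).primeCompl (LocalizedModule.mkLinearMap _ M))
      exact (IsLocalization.AtPrime.to_map_mem_maximal_iff _ (IsLocalRing.maximalIdeal d.R)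
        d.tR).mpr d.tR_mem_max

theorem self_mem_CM : ModuleCat.of d.R d.R ∈ CM d.R :=
  (d.mem_CM _).mpr ⟨inferInstanceAs (Module.Finite d.R d.R),
    IsSMulRegular.of_right_eq_zero_of_smul fun _ hx =>
      (mul_eq_zero.mp hx).resolve_left d.tR_ne⟩

theorem Rn_mem_CM (n : ℕ) : ModuleCat.of d.R (d.Rn n) ∈ CM d.R :=
  (d.mem_CM _).mpr ⟨inferInstanceAs (Module.Finite d.R (d.Rn n)),
    IsSMulRegular.of_right_eq_zero_of_smul fun x hx => Subtype.ext
      ((mul_eq_zero.mp (congrArg Subtype.val hx : d.t * (x : L) = 0)).resolve_left d.t_ne)⟩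

theorem countable : CountableCMType d.R := by
  refine ⟨fun n => ModuleCat.of d.R (d.Rn n), fun M hM hI => ?_⟩
  obtain ⟨hfin, ht⟩ := (d.mem_CM M).mp hM
  have := hI.1
  obtain ⟨n, i, p, h⟩ := d.summand M ht
  have hc : IsCompl (LinearMap.range i) (LinearMap.ker p) := by
    constructor
    · rw [Submodule.disjoint_def]
      rintro _ ⟨x, rfl⟩ hx
      rw [LinearMap.mem_ker, h] at hx
      rw [hx, map_zero]
    · rw [codisjoint_iff, eq_top_iff]
      intro m _
      have : m = i (p m) + (m - i (p m)) := by abel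
      rw [this]
      exact Submodule.add_mem_sup ⟨_, rfl⟩ (by simp [h])
  refine ⟨n, ⟨LinearEquiv.ofBijective p ⟨?_, fun x => ⟨i x, h x⟩⟩⟩⟩
  rcases hI.2 _ _ hc with h1 | h1
  · exfalso
    have h2 : (1 : L) ∈ d.Rn n := ⟨d.V.one_mem, by rw [d.D_one]; simp⟩
    have h3 : i ⟨1, h2⟩ = 0 := by
      have : i ⟨1, h2⟩ ∈ LinearMap.range i := ⟨_, rfl⟩
      rwa [h1] at this
    have h4 := h ⟨1, h2⟩
    rw [h3, map_zero] at h4
    exact zero_ne_one (congrArg Subtype.val h4)
  · exact LinearMap.ker_eq_bot.mp h1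

theorem dim_top : dimSub d.R (CM d.R) = ⊤ := by
  unfold dimSub
  simp only [iInf_eq_top, ENat.natCast_ne_top, imp_false]
  rintro n ⟨G, hG, h⟩
  obtain ⟨hfin, ht⟩ := (d.mem_CM G).mp hG
  obtain ⟨N, hN⟩ := d.exists_St G ht
  have h1 : ({G} : Set (ModuleCat.{u} d.R)) ⊆ St (d.tR ^ N) := by
    rintro _ rfl
    exact hN
  have h2 := ball_subset h1 n (h ▸ d.Rn_mem_CM (N * (n + 1) + 1))
  rw [← pow_mul] at h2
  have := d.Rn_not_St h2
  omega

end Data

end Pool.Agent.H482Z.CMDim
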