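import Mathlib

set_option autoImplicit false

/-!
A discrete valuation ring `V` of a field `L` with an unbounded derivation `D`, and the ring
`R = {v ∈ V : D v ∈ V}` of Akizuki type.
-/

namespace Pool.Agent.H482Z.CMDim

universe u

/-- the data of the construction -/
structure Data (k L : Type u) [Field k] [Field L] where
  V : Subring L
  t : L
  D : L →+ L
  κ : k →+* L
  t_ne : t ≠ 0
  t_mem : t ∈ V
  tinv : t⁻¹ ∉ V
  fact : ∀ x : L, x ≠ 0 → ∃ (n : ℤ) (w : L), w ∈ V ∧ w⁻¹ ∈ V ∧ x = t ^ n * w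
  leib : ∀ a b, D (a * b) = a * D b + D a * b
  Dt : D t = 0
  κ_mem : ∀ c, κ c ∈ V
  Dκ : ∀ c, D (κ c) = 0
  res : ∀ v ∈ V, ∃ c, (v - κ c) / t ∈ V
  dense : ∀ N : ℕ, ∃ w ∈ V, D w = (t ^ N)⁻¹

namespace Data

variable {k L : Type u} [Field k] [Field L] (d : Data k L)

theorem D_one : d.D 1 = 0 := by
  have := d.leib 1 1
  simpa using this

theorem D_const_mul {c : L} (hc : d.D c = 0) (x : L) : d.D (c * x) = c * d.D x := by
  rw [d.leib, hc, zero_mul, add_zero]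

theorem D_tpow (n : ℕ) : d.D (d.t ^ n) = 0 := by
  induction n with
  | zero => simpa using d.D_one
  | succ n ih => rw [pow_succ, d.leib, ih, d.Dt]; simp

theorem D_inv (x : L) : d.D x⁻¹ = -(x⁻¹ * x⁻¹ * d.D x) := by
  rcases eq_or_ne x 0 with rfl | hx
  · simp
  have h := d.leib x x⁻¹
  rw [mul_inv_cancel₀ hx, d.D_one] at h
  have h2 : x * d.D x⁻¹ = -(d.D x * x⁻¹) := by linear_combination -h
  have h3 : d.D x⁻¹ = x⁻¹ * (x * d.D x⁻¹) := by field_simp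
  rw [h3, h2]; ring

theorem D_inv_const {c : L} (hc : d.D c = 0) : d.D c⁻¹ = 0 := by
  rw [d.D_inv, hc]; simp

theorem D_div_t (x : L) : d.D (x / d.t) = d.D x / d.t := by
  rw [div_eq_inv_mul, d.D_const_mul (d.D_inv_const d.Dt), div_eq_inv_mul]

theorem tpow_mem (n : ℕ) : d.t ^ n ∈ d.V := d.V.pow_mem d.t_mem n

theorem mono {x : L} {m n : ℕ} (h : d.t ^ m * x ∈ d.V) (hmn : m ≤ n) : d.t ^ n * x ∈ d.V := by
  obtain ⟨c, rfl⟩ := Nat.exists_eq_add_of_le hmn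
  have := d.V.mul_mem (d.tpow_mem c) h
  convert this using 1
  ring

theorem exists_tpow (x : L) : ∃ N : ℕ, d.t ^ N * x ∈ d.V := by
  rcases eq_or_ne x 0 with rfl | hx
  · exact ⟨0, by simp⟩
  obtain ⟨n, w, hw, -, rfl⟩ := d.fact x hx
  obtain ⟨m, rfl | rfl⟩ := n.eq_nat_or_neg
  · exact ⟨0, by simpa using d.V.mul_mem (d.tpow_mem m) hw⟩
  · refine ⟨m, ?_⟩
    have := d.t_ne
    rw [zpow_neg, zpow_natCast, ← mul_assoc, mul_inv_cancel₀ (pow_ne_zero _ this), one_mul]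
    exact hw

theorem fact_nat {x : L} (hxV : x ∈ d.V) (hx : x ≠ 0) :
    ∃ (n : ℕ) (w : L), w ∈ d.V ∧ w⁻¹ ∈ d.V ∧ w ≠ 0 ∧ x = d.t ^ n * w := by
  obtain ⟨n, w, hw, hw', rfl⟩ := d.fact x hx
  have hw0 : w ≠ 0 := by rintro rfl; simp at hx
  have ht := d.t_ne
  obtain ⟨m, rfl | rfl⟩ := n.eq_nat_or_neg
  · exact ⟨m, w, hw, hw', hw0, by simp⟩
  · rcases m with _ | m
    · exact ⟨0, w, hw, hw', hw0, by simp⟩
    · exfalso
      apply d.tinv
      have := d.V.mul_mem (d.V.mul_mem hxV hw') (d.tpow_mem m)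
      convert this using 1
      rw [zpow_neg, zpow_natCast]
      field_simp
      ring

theorem unit_or {x : L} (hx : x ∈ d.V) : (x ≠ 0 ∧ x⁻¹ ∈ d.V) ∨ x / d.t ∈ d.V := by
  rcases eq_or_ne x 0 with rfl | hx0
  · right; simp
  obtain ⟨n, w, hw, hw', hw0, rfl⟩ := d.fact_nat hx hx0
  rcases n with _ | n
  · left; simpa using ⟨hw0, hw'⟩
  · right
    have := d.V.mul_mem (d.tpow_mem n) hw
    convert this using 1
    have ht := d.t_ne
    field_simp
    ring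

theorem not_both {x : L} (hx0 : x ≠ 0) (h1 : x⁻¹ ∈ d.V) (h2 : x / d.t ∈ d.V) : False := by
  apply d.tinv
  have := d.V.mul_mem h1 h2
  convert this using 1
  field_simp

theorem approx (N : ℕ) : ∀ v ∈ d.V, ∃ c ∈ d.V, d.D c = 0 ∧ (v - c) / d.t ^ N ∈ d.V := by
  induction N with
  | zero => exact fun v hv => ⟨0, d.V.zero_mem, by simp, by simpa using hv⟩
  | succ N ih =>
    intro v hv
    obtain ⟨c, hc, hc0, h⟩ := ih v hv
    obtain ⟨a, ha⟩ := d.res _ h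
    refine ⟨c + d.t ^ N * d.κ a, d.V.add_mem hc (d.V.mul_mem (d.tpow_mem N) (d.κ_mem a)), ?_, ?_⟩
    · rw [map_add, hc0, d.D_const_mul (d.D_tpow N), d.Dκ]; simp
    · convert ha using 1
      have ht := d.t_ne
      field_simp
      ring

theorem isUnit_V {x : d.V} : IsUnit x ↔ ((x : L) ≠ 0 ∧ (x : L)⁻¹ ∈ d.V) := by
  constructor
  · intro h
    obtain ⟨y, hy⟩ := h.exists_right_inv
    have h1 : (x : L) * y = 1 := by exact_mod_cast congrArg Subtype.val hy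
    refine ⟨left_ne_zero_of_mul_eq_one h1, ?_⟩
    rw [← eq_inv_of_mul_eq_one_right h1]
    exact y.2
  · rintro ⟨h0, h1⟩
    exact IsUnit.of_mul_eq_one ⟨_, h1⟩ (Subtype.ext (mul_inv_cancel₀ h0))

instance dvr : IsDiscreteValuationRing d.V := by
  apply IsDiscreteValuationRing.ofHasUnitMulPowIrreducibleFactorization
  refine ⟨⟨d.t, d.t_mem⟩, ⟨fun h => d.tinv (d.isUnit_V.mp h).2, fun a b hab => ?_⟩, ?_⟩
  · have hab' : d.t = (a : L) * b := congrArg Subtype.val hab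
    rcases d.unit_or a.2 with ha | ha
    · exact Or.inl (d.isUnit_V.mpr ha)
    · right
      have hb0 : (b : L) ≠ 0 := by
        intro h; rw [h, mul_zero] at hab'; exact d.t_ne hab'
      have ha0 : (a : L) ≠ 0 := by
        intro h; rw [h, zero_mul] at hab'; exact d.t_ne hab'
      refine d.isUnit_V.mpr ⟨hb0, ?_⟩
      convert ha using 1
      rw [hab']
      field_simp
  · intro x hx
    obtain ⟨n, w, hw, hw', hw0, h⟩ := d.fact_nat x.2 (fun h => hx (Subtype.ext h))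
    refine ⟨n, (d.isUnit_V.mpr (⟨hw0, hw'⟩ : ((⟨w, hw⟩ : d.V) : L) ≠ 0 ∧ _)).unit, ?_⟩
    apply Subtype.ext
    simp [h]

/-- the ring `R` -/
def R : Subring L where
  carrier := {v | v ∈ d.V ∧ d.D v ∈ d.V}
  mul_mem' := by
    rintro a b ⟨ha, ha'⟩ ⟨hb, hb'⟩
    refine ⟨d.V.mul_mem ha hb, ?_⟩
    rw [d.leib]
    exact d.V.add_mem (d.V.mul_mem ha hb') (d.V.mul_mem ha' hb)
  one_mem' := ⟨d.V.one_mem, by rw [d.D_one]; exact d.V.zero_mem⟩
  add_mem' := by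
    rintro a b ⟨ha, ha'⟩ ⟨hb, hb'⟩
    exact ⟨d.V.add_mem ha hb, by rw [map_add]; exact d.V.add_mem ha' hb'⟩
  zero_mem' := ⟨d.V.zero_mem, by rw [map_zero]; exact d.V.zero_mem⟩
  neg_mem' := by
    rintro a ⟨ha, ha'⟩
    exact ⟨d.V.neg_mem ha, by rw [map_neg]; exact d.V.neg_mem ha'⟩

theorem mem_R {x : L} : x ∈ d.R ↔ x ∈ d.V ∧ d.D x ∈ d.V := Iff.rfl

theorem const_mem {c : L} (hc : c ∈ d.V) (h0 : d.D c = 0) : c ∈ d.R :=
  ⟨hc, by rw [h0]; exact d.V.zero_mem⟩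

/-- `t` as an element of `R` -/
def tR : d.R := ⟨d.t, d.const_mem d.t_mem d.Dt⟩

@[simp] theorem coe_tR : (d.tR : L) = d.t := rfl

theorem tR_ne : d.tR ≠ 0 := fun h => d.t_ne (congrArg Subtype.val h)

theorem exists_tpow_R (x : L) : ∃ N : ℕ, d.t ^ N * x ∈ d.R := by
  obtain ⟨a, ha⟩ := d.exists_tpow x
  obtain ⟨b, hb⟩ := d.exists_tpow (d.D x)
  refine ⟨a + b, d.mono ha (by omega), ?_⟩
  rw [d.D_const_mul (d.D_tpow _)]
  exact d.mono hb (by omega)

theorem isUnit_R {x : d.R} : IsUnit x ↔ ((x : L) ≠ 0 ∧ (x : L)⁻¹ ∈ d.V) := by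
  constructor
  · intro h
    obtain ⟨y, hy⟩ := h.exists_right_inv
    have h1 : (x : L) * y = 1 := by exact_mod_cast congrArg Subtype.val hy
    refine ⟨left_ne_zero_of_mul_eq_one h1, ?_⟩
    rw [← eq_inv_of_mul_eq_one_right h1]
    exact y.2.1
  · rintro ⟨h0, h1⟩
    refine IsUnit.of_mul_eq_one ⟨_, h1, ?_⟩ (Subtype.ext (mul_inv_cancel₀ h0))
    rw [d.D_inv]
    exact d.V.neg_mem (d.V.mul_mem (d.V.mul_mem h1 h1) x.2.2)

theorem nonunit_iff {x : d.R} : ¬ IsUnit x ↔ (x : L) / d.t ∈ d.V := by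
  rw [d.isUnit_R]
  constructor
  · intro h
    exact (d.unit_or x.2.1).resolve_left h
  · rintro h ⟨h0, h1⟩
    exact d.not_both h0 h1 h

instance isLocalRing : IsLocalRing d.R := by
  apply IsLocalRing.of_nonunits_add
  intro a b ha hb
  rw [mem_nonunits_iff, d.nonunit_iff] at *
  have := d.V.add_mem ha hb
  convert this using 1
  simp [add_div]

theorem mem_max {x : d.R} : x ∈ IsLocalRing.maximalIdeal d.R ↔ (x : L) / d.t ∈ d.V := by
  rw [IsLocalRing.mem_maximalIdeal, mem_nonunits_iff, d.nonunit_iff]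

theorem tR_mem_max : d.tR ∈ IsLocalRing.maximalIdeal d.R := by
  rw [d.mem_max, coe_tR, div_self d.t_ne]
  exact d.V.one_mem

theorem dvd_tpow {x : d.R} (hx : x ≠ 0) : ∃ N : ℕ, x ∣ d.tR ^ N := by
  obtain ⟨N, hN⟩ := d.exists_tpow_R (x : L)⁻¹
  refine ⟨N, ⟨_, hN⟩, Subtype.ext ?_⟩
  have : (x : L) ≠ 0 := fun h => hx (Subtype.ext h)
  simp only [SubmonoidClass.coe_pow, coe_tR, Subring.coe_mul]
  field_simp

theorem t_dvd_sq {x : d.R} (hx : x ∈ IsLocalRing.maximalIdeal d.R) : d.tR ∣ x ^ 2 := by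
  rw [d.mem_max] at hx
  refine ⟨⟨x * (x / d.t), d.V.mul_mem x.2.1 hx, ?_⟩, Subtype.ext ?_⟩
  · rw [d.leib, d.D_div_t]
    have := d.V.add_mem (d.V.mul_mem hx x.2.2) (d.V.mul_mem x.2.2 hx)
    convert this using 1
    ring
  · have ht := d.t_ne
    simp only [SubmonoidClass.coe_pow, coe_tR, Subring.coe_mul]
    field_simp

theorem prime_eq {p : Ideal d.R} (hp : p.IsPrime) (h0 : p ≠ ⊥) :
    p = IsLocalRing.maximalIdeal d.R := by
  refine le_antisymm (IsLocalRing.le_maximalIdeal hp.ne_top) fun x hx => ?_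
  obtain ⟨f, hf, hf0⟩ := Submodule.exists_mem_ne_zero_of_ne_bot h0
  obtain ⟨N, hN⟩ := d.dvd_tpow hf0
  have ht : d.tR ∈ p := hp.mem_of_pow_mem N (Ideal.mem_of_dvd _ hN hf)
  exact hp.mem_of_pow_mem 2 (Ideal.mem_of_dvd _ (d.t_dvd_sq hx) ht)

theorem max_fg : (IsLocalRing.maximalIdeal d.R).FG := by
  classical
  obtain ⟨w, hw, hDw⟩ := d.dense 1
  have ht := d.t_ne
  have hy : d.t * w ∈ d.R := by
    refine ⟨d.V.mul_mem d.t_mem hw, ?_⟩
    rw [d.D_const_mul d.Dt, hDw, pow_one, mul_inv_cancel₀ ht]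
    exact d.V.one_mem
  refine ⟨{d.tR, ⟨_, hy⟩}, le_antisymm ?_ fun x hx => ?_⟩
  · rw [Ideal.span_le]
    intro x hx
    simp only [Finset.coe_insert, Finset.coe_singleton, Set.mem_insert_iff,
      Set.mem_singleton_iff] at hx
    rcases hx with rfl | rfl
    · exact d.tR_mem_max
    · rw [SetLike.mem_coe, d.mem_max]
      simpa [mul_div_cancel_left₀ _ ht] using hw
  · rw [d.mem_max] at hx
    obtain ⟨c, hc⟩ := d.res _ x.2.2
    have hs : x / d.t - d.κ c * w ∈ d.R := by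
      refine ⟨d.V.sub_mem hx (d.V.mul_mem (d.κ_mem c) hw), ?_⟩
      rw [map_sub, d.D_div_t, d.D_const_mul (d.Dκ c), hDw]
      convert hc using 1
      field_simp
    rw [Finset.coe_insert, Finset.coe_singleton, Ideal.mem_span_pair]
    refine ⟨⟨_, hs⟩, ⟨d.κ c, d.const_mem (d.κ_mem c) (d.Dκ c)⟩, Subtype.ext ?_⟩
    simp only [Subring.coe_add, Subring.coe_mul, coe_tR]
    field_simp
    ring

instance noeth : IsNoetherianRing d.R :=
  IsNoetherianRing.of_prime_ne_bot fun _ hp h0 => d.prime_eq hp h0 ▸ d.max_fg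

theorem max_ne_bot : IsLocalRing.maximalIdeal d.R ≠ ⊥ := fun h =>
  d.tR_ne (by simpa [h] using d.tR_mem_max)

theorem dim_eq : ringKrullDim d.R = 1 := by
  rw [ringKrullDim_eq_one_iff_of_isLocalRing_isDomain]
  refine ⟨fun h => d.max_ne_bot (IsLocalRing.isField_iff_maximalIdeal_eq.mp h), fun x hx => ?_⟩
  rw [Ideal.radical_eq_sInf]
  refine le_sInf fun J ⟨hJ1, hJ2⟩ => ?_
  refine (d.prime_eq hJ2 fun h => hx ?_).ge
  simpa [h] using hJ1

theorem residue_equiv : Nonempty (k ≃+* IsLocalRing.ResidueField d.R) := by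
  let κR : k →+* d.R := d.κ.codRestrict d.R fun c => d.const_mem (d.κ_mem c) (d.Dκ c)
  refine ⟨RingEquiv.ofBijective ((IsLocalRing.residue d.R).comp κR) ⟨RingHom.injective _, ?_⟩⟩
  intro y
  obtain ⟨x, rfl⟩ := IsLocalRing.residue_surjective y
  obtain ⟨c, hc⟩ := d.res _ x.2.1
  refine ⟨c, ?_⟩
  rw [RingHom.comp_apply, eq_comm, ← sub_eq_zero, ← map_sub, IsLocalRing.residue_eq_zero_iff,
    d.mem_max]
  exact hc

instance fracRing : IsFractionRing d.R L := by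
  apply IsFractionRing.of_field
  intro z
  obtain ⟨N, hN⟩ := d.exists_tpow_R z
  refine ⟨⟨_, hN⟩, d.tR ^ N, ?_⟩
  have ht := d.t_ne
  change z = (d.t ^ N * z) / ((d.tR ^ N : d.R) : L)
  simp only [SubmonoidClass.coe_pow, coe_tR]
  field_simp

/-- the overrings `R_n`, as `R`-modules -/
def Rn (n : ℕ) : Submodule d.R L where
  carrier := {v | v ∈ d.V ∧ d.t ^ n * d.D v ∈ d.V}
  add_mem' := by
    rintro a b ⟨ha, ha'⟩ ⟨hb, hb'⟩
    exact ⟨d.V.add_mem ha hb, by rw [map_add, mul_add]; exact d.V.add_mem ha' hb'⟩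
  zero_mem' := ⟨d.V.zero_mem, by rw [map_zero, mul_zero]; exact d.V.zero_mem⟩
  smul_mem' := by
    rintro c a ⟨ha, ha'⟩
    refine ⟨d.V.mul_mem c.2.1 ha, ?_⟩
    change d.t ^ n * d.D (c * a) ∈ d.V
    rw [d.leib]
    have := d.V.add_mem (d.V.mul_mem c.2.1 ha')
      (d.V.mul_mem (d.tpow_mem n) (d.V.mul_mem c.2.2 ha))
    convert this using 1
    ring

theorem mem_Rn {n : ℕ} {x : L} : x ∈ d.Rn n ↔ x ∈ d.V ∧ d.t ^ n * d.D x ∈ d.V := Iff.rfl

instance finite_Rn (n : ℕ) : Module.Finite d.R (d.Rn n) := by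
  let f : d.Rn n →ₗ[d.R] d.R :=
    { toFun := fun x => ⟨d.t ^ n * x, d.V.mul_mem (d.tpow_mem n) x.2.1, by
        rw [d.D_const_mul (d.D_tpow n)]; exact x.2.2⟩
      map_add' := fun x y => Subtype.ext (by simp [mul_add])
      map_smul' := fun c x => Subtype.ext (by
        simp only [SetLike.val_smul, RingHom.id_apply, smul_eq_mul, Subring.coe_mul,
          Subring.smul_def]
        ring) }
  refine Module.Finite.of_injective f fun x y h => Subtype.ext ?_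
  have h1 : d.t ^ n * (x : L) = d.t ^ n * y := congrArg Subtype.val h
  exact mul_left_cancel₀ (pow_ne_zero _ d.t_ne) h1

end Data

end Pool.Agent.H482Z.CMDim
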